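import Pool.Agent.H261R3.LN.LStmts

/-! # TaskLBFin (helper929): finitely many classes of loops have a `C`-Lipschitz representative. -/

set_option autoImplicit false

open scoped NNReal ENNReal unitInterval BoundedContinuousFunction

namespace Pool.Agent.H261R3.LN

open Pool.Agent.H261R3.LH (Lip1 IsLNR clip clip_nonneg)

namespace LBFin929

variable {S : Type} [MetricSpace S]

theorem close_homotopic {m : ℕ} (ι : S → EuclideanSpace ℝ (Fin m))
    (r : EuclideanSpace ℝ (Fin m) → S) (K : ℝ≥0) (ρ : ℝ) (hι : LipschitzWith K ι)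
    (hr : LipschitzOnWith K r (Metric.thickening ρ (Set.range ι))) (hri : ∀ x, r (ι x) = x)
    (ε : ℝ) (hKε : K * ε < ρ) (p : S) (γ γ' : Path p p)
    (hd : ∀ t, dist (γ t) (γ' t) ≤ ε) : γ.Homotopic γ' := by
  have hε : 0 ≤ ε := dist_nonneg.trans (hd 0)
  let A : I × I → EuclideanSpace ℝ (Fin m) := fun x =>
    ι (γ x.2) + (x.1 : ℝ) • (ι (γ' x.2) - ι (γ x.2))
  have hAc : Continuous A := by
    have h1 : Continuous fun x : I × I => ι (γ x.2) :=
      hι.continuous.comp (γ.continuous.comp continuous_snd)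
    have h2 : Continuous fun x : I × I => ι (γ' x.2) :=
      hι.continuous.comp (γ'.continuous.comp continuous_snd)
    exact h1.add ((continuous_subtype_val.comp continuous_fst).smul (h2.sub h1))
  have hA : ∀ x, A x ∈ Metric.thickening ρ (Set.range ι) := by
    intro x
    rw [Metric.mem_thickening_iff]
    refine ⟨ι (γ x.2), ⟨_, rfl⟩, ?_⟩
    have h1 : dist (A x) (ι (γ x.2)) = (x.1 : ℝ) * dist (ι (γ' x.2)) (ι (γ x.2)) := by
      rw [dist_eq_norm, dist_eq_norm]
      simp only [A, add_sub_cancel_left, norm_smul, Real.norm_eq_abs]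
      rw [abs_of_nonneg x.1.2.1]
    rw [h1]
    have h2 : dist (ι (γ' x.2)) (ι (γ x.2)) ≤ K * ε := by
      refine (hι.dist_le_mul _ _).trans ?_
      exact mul_le_mul_of_nonneg_left (by rw [dist_comm]; exact hd _) K.2
    have h3 : (x.1 : ℝ) * dist (ι (γ' x.2)) (ι (γ x.2)) ≤ 1 * (K * ε) :=
      mul_le_mul x.1.2.2 h2 dist_nonneg zero_le_one
    linarith
  have hc : Continuous fun x : I × I => r (A x) :=
    hr.continuousOn.comp_continuous hAc hA
  refine ⟨⟨⟨⟨fun x => r (A x), hc⟩, ?_, ?_⟩, ?_⟩⟩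
  · intro t
    simp [A, hri]
  · intro t
    simp [A, hri]
  · intro t x hx
    rcases hx with rfl | hx
    · simp [A, hri]
    · rw [Set.mem_singleton_iff] at hx
      subst hx
      simp [A, hri]

end LBFin929

open LBFin929 in
theorem taskLBFin : TaskLBFin := by
  intro S _ _ hS p C
  obtain ⟨m, ι, r, K, ρ, hρ, hι, hr, hri⟩ := hS
  -- the scale
  obtain ⟨ε, hε0, hKε⟩ : ∃ ε : ℝ, 0 < ε ∧ K * ε < ρ := by
    have hK : (0 : ℝ) ≤ K := K.2
    refine ⟨ρ / (K + 1), by positivity, ?_⟩
    rw [mul_div_assoc', div_lt_iff₀ (by positivity)]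
    nlinarith
  -- compactness of the set of Lipschitz maps
  let A : Set (I →ᵇ S) := {f | ∀ s t : I, dist (f s) (f t) ≤ C * |(s : ℝ) - t|}
  have hclosed : IsClosed A := by
    have : A = ⋂ (s : I) (t : I), {f : I →ᵇ S | dist (f s) (f t) ≤ C * |(s : ℝ) - t|} := by
      ext f; simp only [A, Set.mem_ofPred_eq, Set.mem_iInter]
    rw [this]
    refine isClosed_iInter fun s => isClosed_iInter fun t => ?_
    exact isClosed_le
      ((continuous_eval_const s).dist (continuous_eval_const t)) continuous_const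
  have hequi : Equicontinuous ((↑) : A → I → S) := by
    apply UniformEquicontinuous.equicontinuous
    apply LipschitzWith.uniformEquicontinuous _ (Real.toNNReal C)
    intro f
    apply LipschitzWith.of_dist_le_mul
    intro s t
    refine (f.2 s t).trans ?_
    rw [Subtype.dist_eq, Real.dist_eq]
    exact mul_le_mul_of_nonneg_right (Real.le_coe_toNNReal C) (abs_nonneg _)
  have hcomp : IsCompact A := BoundedContinuousFunction.arzela_ascoli₁ A hclosed hequi
  obtain ⟨T, hTfin, hT⟩ := Metric.totallyBounded_iff.1 hcomp.totallyBounded (ε / 2) (half_pos hε0)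
  -- choice of representatives
  have hch : ∀ c : Path.Homotopic.Quotient p p, ∃ y : I →ᵇ S,
      (∃ γ : Path p p, PLip C γ ∧ Path.Homotopic.Quotient.mk γ = c) →
      y ∈ T ∧ ∃ γ : Path p p, Path.Homotopic.Quotient.mk γ = c ∧ ∀ t, dist (γ t) (y t) < ε / 2 := by
    intro c
    by_cases h : ∃ γ : Path p p, PLip C γ ∧ Path.Homotopic.Quotient.mk γ = c
    · obtain ⟨γ, hγ, hc⟩ := h
      have hmem : BoundedContinuousFunction.mkOfCompact γ.toContinuousMap ∈ A := by
        intro s t
        exact hγ s t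
      have h2 := hT hmem
      rw [Set.mem_iUnion₂] at h2
      obtain ⟨y, hyT, hy⟩ := h2
      refine ⟨y, fun _ => ⟨hyT, γ, hc, fun t => ?_⟩⟩
      rw [Metric.mem_ball] at hy
      exact lt_of_le_of_lt (BoundedContinuousFunction.dist_coe_le_dist
        (f := BoundedContinuousFunction.mkOfCompact γ.toContinuousMap) (g := y) t) hy
    · exact ⟨BoundedContinuousFunction.const I p, fun h' => absurd h' h⟩
  choose g hg using hch
  refine Set.Finite.of_finite_image (f := g) (hTfin.subset ?_) ?_
  · rintro y ⟨c, hc, rfl⟩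
    exact (hg c hc).1
  · intro c hc c' hc' hcc
    obtain ⟨-, γ, rfl, h1⟩ := hg c hc
    obtain ⟨-, γ', rfl, h2⟩ := hg c' hc'
    apply Path.Homotopic.Quotient.eq.2
    apply close_homotopic ι r K ρ hι hr hri ε hKε
    intro t
    have h3 := h1 t
    have h4 := h2 t
    rw [hcc] at h3
    have h5 := dist_triangle_right (γ t) (γ' t) (g (Path.Homotopic.Quotient.mk γ') t)
    linarith

end Pool.Agent.H261R3.LN
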